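import Pool.Agent.W962.PP.CORP1

/-!
PP project, task CORP: correlations of divisor sums for three polynomials.
-/

set_option autoImplicit false

namespace Pool.Agent.W962.PP

open Finset
open Pool.Agent.H442R2
open Pool.Agent.H442R2.KF
open Pool.Agent.W23.DC
open Pool.Agent.W23.SG
open Pool.Agent.W23.PL
open Pool.Agent.W23.KT
open Pool.Agent.W23.PP
open Pool.Agent.H442R2.BX.TaskEX
open Pool.Agent.H442R2.BX.TaskSV
open Pool.Agent.W249.PL
open Pool.Agent.W410.KS (II_sum kw_nonneg kw_le_ta ta_dvd fib_sum')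

/-- the exponent -/
def EP (k : ℕ) : ℕ := 2 ^ (3 + 3 * k) + 1 + 3 * 2 ^ k

/-- the constant -/
noncomputable def CP (k M : ℕ) : ℝ :=
  6 * M * (8 * (2 ^ (3 + 3 * k) * 2 ^ (2 ^ (3 + 3 * k)))) +
    3 * 4 ^ k * 2 ^ (3 * 2 ^ k) * 2 + 1

theorem CP_pos (k M : ℕ) : 0 < CP k M := by unfold CP; positivity

/-- the bad primes divide the resultants -/
theorem bad3 {φ0 φ1 φ2 : ℤ → ℤ} {R01 R02 R12 : ℤ}
    (h01 : ∀ (n : ℤ) (l : ℕ), l.Prime → (l : ℤ) ∣ φ0 n → (l : ℤ) ∣ φ1 n → (l : ℤ) ∣ R01)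
    (h02 : ∀ (n : ℤ) (l : ℕ), l.Prime → (l : ℤ) ∣ φ0 n → (l : ℤ) ∣ φ2 n → (l : ℤ) ∣ R02)
    (h12 : ∀ (n : ℤ) (l : ℕ), l.Prime → (l : ℤ) ∣ φ1 n → (l : ℤ) ∣ φ2 n → (l : ℤ) ∣ R12)
    {e0 e1 e2 l : ℕ} (hl : l.Prime) {n : ℤ} (k0 : (e0 : ℤ) ∣ φ0 n) (k1 : (e1 : ℤ) ∣ φ1 n)
    (k2 : (e2 : ℤ) ∣ φ2 n) (h : (l ∣ e0 ∧ l ∣ e1) ∨ (l ∣ e0 ∧ l ∣ e2) ∨ (l ∣ e1 ∧ l ∣ e2)) :
    (l : ℤ) ∣ R01 * R02 * R12 := by
  have d0 : l ∣ e0 → (l : ℤ) ∣ φ0 n := fun h => (Int.natCast_dvd_natCast.mpr h).trans k0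
  have d1 : l ∣ e1 → (l : ℤ) ∣ φ1 n := fun h => (Int.natCast_dvd_natCast.mpr h).trans k1
  have d2 : l ∣ e2 → (l : ℤ) ∣ φ2 n := fun h => (Int.natCast_dvd_natCast.mpr h).trans k2
  rcases h with h | h | h
  · exact Dvd.dvd.mul_right (Dvd.dvd.mul_right (h01 n l hl (d0 h.1) (d1 h.2)) _) _
  · exact Dvd.dvd.mul_right (Dvd.dvd.mul_left (h02 n l hl (d0 h.1) (d2 h.2)) _) _
  · exact Dvd.dvd.mul_left (h12 n l hl (d1 h.1) (d2 h.2)) _

set_option maxHeartbeats 2000000 in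
theorem CORP (hRTP : St_RTP) (hGS : BX.St_GS) : St_CORP := by
  intro k M hk
  obtain ⟨N₀, hN₀⟩ := CL_cop
  refine ⟨CP k M, EP k, max N₀ 100, CP_pos k M, ?_⟩
  intro N hN D hD1 hD φ0 φ1 φ2 hφ0 hφ1 hφ2 hc01 hc02 hc12 Q0 Q1 Q2 y hy hQ0 hQ1 hQ2 U t0 t1 t2
    hU1 ht0 ht1 ht2
  obtain ⟨hR1, -, hR3⟩ := hRTP
  have hNN₀ : N₀ ≤ N := (le_max_left _ _).trans hN
  have hN100 : 100 ≤ N := (le_max_right _ _).trans hN
  have hN1 : 1 ≤ N := by omega
  have hN3 : 3 ≤ N := by omega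
  have hNr : (100 : ℝ) ≤ N := by exact_mod_cast hN100
  have hN0 : (0 : ℝ) < N := by linarith
  have hy0 : (0 : ℝ) < y := by linarith
  have hU : 0 ≤ U := by linarith
  have hlog : 1 ≤ Real.log N := by
    rw [Real.le_log_iff_exp_le (by linarith)]
    have := Real.exp_one_lt_d9
    linarith
  have hU3 : 0 ≤ U ^ 3 := by positivity
  -- the size of the moduli
  set w : ℝ := (N : ℝ) ^ (1 / 20 : ℝ) with hw
  have hw0 : 0 < w := by rw [hw]; positivity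
  have hw20 : w ^ 20 = N := by
    rw [hw, ← Real.rpow_natCast, ← Real.rpow_mul hN0.le]
    norm_num
  have hw1 : 1 ≤ w := by
    rw [hw]
    exact Real.one_le_rpow (by linarith) (by norm_num)
  have hlogw : Real.log N ≤ 20 * w := by
    have h1 : Real.log N = 20 * Real.log w := by
      rw [← hw20, Real.log_pow]; norm_num
    have h2 := Real.log_le_sub_one_of_pos hw0
    rw [h1]
    linarith
  have hw15 : 20 ≤ w ^ 15 := by
    by_contra hcon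
    push Not at hcon
    have h1 : (w ^ 15) ^ 4 < 20 ^ 4 := pow_lt_pow_left₀ hcon (by positivity) (by norm_num)
    have h2 : (w ^ 15) ^ 4 = (N : ℝ) ^ 3 := by rw [← hw20]; ring
    have h3 : (100 : ℝ) ^ 3 ≤ (N : ℝ) ^ 3 := pow_le_pow_left₀ (by norm_num) hNr 3
    rw [h2] at h1
    norm_num at h1 h3
    linarith
  set X : ℕ := D * D * D with hX
  have hXr : (X : ℝ) ≤ w ^ 4 := by
    rw [hX]
    push_cast
    calc (D : ℝ) * D * D ≤ w * w * w := by gcongr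
      _ = w ^ 3 := by ring
      _ ≤ w ^ 4 := pow_le_pow_right₀ hw1 (by norm_num)
  have hXN : (X : ℝ) ≤ N := by
    rw [← hw20]
    exact hXr.trans (pow_le_pow_right₀ hw1 (by norm_num))
  have hXlog : (X : ℝ) * Real.log N ≤ N := by
    calc (X : ℝ) * Real.log N ≤ w ^ 4 * (20 * w) := by gcongr
      _ = 20 * w ^ 5 := by ring
      _ ≤ w ^ 15 * w ^ 5 := by gcongr
      _ = N := by rw [← hw20]; ring
  rw [expand3 N D hN1 t0 t1 t2 φ0 φ1 φ2, main3, ← Finset.sum_sub_distrib]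
  obtain ⟨R01, hne01, hb01, hd01⟩ := hc01
  obtain ⟨R02, hne02, hb02, hd02⟩ := hc02
  obtain ⟨R12, hne12, hb12, hd12⟩ := hc12
  set Ls : Finset ℕ := Q1 ∪ Q2 with hLs
  have hLsP : ∀ l ∈ Ls, l.Prime ∧ y ≤ (l : ℝ) := by
    intro l hl
    rcases mem_union.mp hl with h | h
    · exact hQ1 l h
    · exact hQ2 l h
  set L : Finset ℕ := Ls.filter (fun l : ℕ => (l : ℤ) ∣ R01 * R02 * R12) with hL
  have hcf : ∀ p, |cf3 t0 t1 t2 p| ≤ U ^ 3 := by
    intro p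
    unfold cf3
    rw [abs_mul, abs_mul]
    calc |t0 p.1| * (|t1 p.2.1| * |t2 p.2.2|) ≤ U * (U * U) := by
          gcongr
          · exact ht0.bd _
          · exact ht1.bd _
          · exact ht2.bd _
      _ = U ^ 3 := by ring
  -- the single terms
  have hterm : ∀ p ∈ id3 D, |cf3 t0 t1 t2 p * SP N φ0 φ1 φ2 p.1 p.2.1 p.2.2 -
      cf3 t0 t1 t2 p * (N * (rh φ0 p.1 * (rh φ1 p.2.1 * rh φ2 p.2.2)))| ≤
      U ^ 3 * (1 / (N : ℝ) ^ 4 + W3 k p * A3 N L p + N * (W3 k p * B3 Ls p)) := by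
    intro p hp
    have hA := A3_nonneg N L p
    have hB := B3_nonneg Ls p
    have hW := W3_nonneg k p
    rw [← mul_sub, abs_mul]
    by_cases hz0 : t0 p.1 = 0
    · have : cf3 t0 t1 t2 p = 0 := by unfold cf3; rw [hz0]; ring
      rw [this, abs_zero, zero_mul]
      positivity
    by_cases hz1 : t1 p.2.1 = 0
    · have : cf3 t0 t1 t2 p = 0 := by unfold cf3; rw [hz1]; ring
      rw [this, abs_zero, zero_mul]
      positivity
    by_cases hz2 : t2 p.2.2 = 0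
    · have : cf3 t0 t1 t2 p = 0 := by unfold cf3; rw [hz2]; ring
      rw [this, abs_zero, zero_mul]
      positivity
    refine mul_le_mul (hcf p) ?_ (abs_nonneg _) hU3
    obtain ⟨he0, he1, he2⟩ := mem_id3 hp
    obtain ⟨sq0, -, pr0⟩ := ht0.supp _ hz0
    obtain ⟨sq1, -, pr1⟩ := ht1.supp _ hz1
    obtain ⟨sq2, -, pr2⟩ := ht2.supp _ hz2
    have n0 : (0 : ℝ) ≤ nr φ0 p.1 := by positivity
    have n1 : (0 : ℝ) ≤ nr φ1 p.2.1 := by positivity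
    have n2 : (0 : ℝ) ≤ nr φ2 p.2.2 := by positivity
    have r0 : (0 : ℝ) < p.1 := by exact_mod_cast he0.1
    have r1 : (0 : ℝ) < p.2.1 := by exact_mod_cast he1.1
    have r2 : (0 : ℝ) < p.2.2 := by exact_mod_cast he2.1
    have hNB : 0 ≤ (N : ℝ) * (W3 k p * B3 Ls p) := by positivity
    have hWA : 0 ≤ W3 k p * A3 N L p := by positivity
    by_cases hc : Nat.Coprime p.1 p.2.1 ∧ Nat.Coprime p.1 p.2.2 ∧ Nat.Coprime p.2.1 p.2.2
    · obtain ⟨Ω, cΩ, ltΩ, dvΩ⟩ := hR1 φ0 φ1 φ2 hφ0.per hφ1.per hφ2.per p.1 p.2.1 p.2.2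
        he0.1 he1.1 he2.1 hc.1 hc.2.1 hc.2.2
      set m : ℕ := p.1 * p.2.1 * p.2.2 with hm
      have hm1 : 1 ≤ m := Nat.mul_pos (Nat.mul_pos he0.1 he1.1) he2.1
      have hm0 : (0 : ℝ) < m := by exact_mod_cast hm1
      have hmX : m ≤ X := Nat.mul_le_mul (Nat.mul_le_mul he0.2 he1.2) he2.2
      have hmXr : (m : ℝ) ≤ X := by exact_mod_cast hmX
      have hmlog : (m : ℝ) * Real.log N ≤ N :=
        le_trans (mul_le_mul_of_nonneg_right hmXr (by linarith)) hXlog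
      rw [SP_classes N hN1 φ0 φ1 φ2 p.1 p.2.1 p.2.2 m Ω ltΩ dvΩ]
      have hΩm : (Ω.card : ℝ) = (nr φ0 p.1 : ℝ) * nr φ1 p.2.1 * nr φ2 p.2.2 := by
        rw [cΩ]; push_cast; ring
      have hmain : (N : ℝ) * (rh φ0 p.1 * (rh φ1 p.2.1 * rh φ2 p.2.2)) =
          ∑ _s ∈ Ω, (N : ℝ) / m := by
        rw [Finset.sum_const, nsmul_eq_mul, hΩm, hm]
        unfold rh
        push_cast
        field_simp
      rw [hmain, ← Finset.sum_sub_distrib]
      have h1 : |∑ s ∈ Ω, (CL N m s - (N : ℝ) / m)| ≤ ∑ _s ∈ Ω, 1 / (N : ℝ) ^ 5 :=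
        (Finset.abs_sum_le_sum_abs _ _).trans
          (Finset.sum_le_sum fun s _ => hN₀ N hNN₀ m s hm1 hmlog hN3)
      rw [Finset.sum_const, nsmul_eq_mul] at h1
      have h2 : (Ω.card : ℝ) ≤ N := by
        refine le_trans ?_ (hmXr.trans hXN)
        have h3 : Ω.card ≤ m := by
          rw [cΩ, hm]
          exact Nat.mul_le_mul (Nat.mul_le_mul (nr_le _ _) (nr_le _ _)) (nr_le _ _)
        exact_mod_cast h3
      have h4 : (Ω.card : ℝ) * (1 / (N : ℝ) ^ 5) ≤ 1 / (N : ℝ) ^ 4 := by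
        calc (Ω.card : ℝ) * (1 / (N : ℝ) ^ 5) ≤ N * (1 / (N : ℝ) ^ 5) := by gcongr
          _ = 1 / (N : ℝ) ^ 4 := by field_simp
      linarith
    · obtain ⟨l, hl, hl3⟩ := not_cop hc
      have hlP : l ∈ Ls := by
        rcases hl3 with h | h | h
        · exact mem_union_left _ (pr1 l hl h.2)
        · exact mem_union_right _ (pr2 l hl h.2)
        · exact mem_union_left _ (pr1 l hl h.1)
      have b0 := ((hR3 k M N φ0 hφ0).2 p.1 sq0).2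
      have b1 := ((hR3 k M N φ1 hφ1).2 p.2.1 sq1).2
      have b2 := ((hR3 k M N φ2 hφ2).2 p.2.2 sq2).2
      have hk0 := kw_nonneg k p.1
      have hk1 := kw_nonneg k p.2.1
      have hk2 := kw_nonneg k p.2.2
      have hnW : (nr φ0 p.1 : ℝ) * ((nr φ1 p.2.1 : ℝ) * nr φ2 p.2.2) ≤ W3 k p := by
        unfold W3
        gcongr
      have hinv := inv_le_B3 hlP hl3
      have hmt : (N : ℝ) * (rh φ0 p.1 * (rh φ1 p.2.1 * rh φ2 p.2.2)) ≤
          N * (W3 k p * B3 Ls p) := by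
        have e1 : rh φ0 p.1 * (rh φ1 p.2.1 * rh φ2 p.2.2) =
            (nr φ0 p.1 : ℝ) * ((nr φ1 p.2.1 : ℝ) * nr φ2 p.2.2) *
              ((1 / (p.1 : ℝ)) * ((1 / (p.2.1 : ℝ)) * (1 / (p.2.2 : ℝ)))) := by
          unfold rh
          field_simp
        rw [e1]
        gcongr
      have hmt0 : 0 ≤ (N : ℝ) * (rh φ0 p.1 * (rh φ1 p.2.1 * rh φ2 p.2.2)) := by
        unfold rh
        positivity
      have hS0 := SP_nonneg N φ0 φ1 φ2 p.1 p.2.1 p.2.2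
      have hSS : SP N φ0 φ1 φ2 p.1 p.2.1 p.2.2 ≤ W3 k p * A3 N L p := by
        by_cases hsol : ∃ n : ℤ, (p.1 : ℤ) ∣ φ0 n ∧ (p.2.1 : ℤ) ∣ φ1 n ∧ (p.2.2 : ℤ) ∣ φ2 n
        · obtain ⟨n, k1, k2, k3⟩ := hsol
          obtain ⟨hM1, hM2⟩ := M3_bd hp
          have hMN : (M3 p : ℝ) ≤ N := le_trans (by exact_mod_cast hM2) hXN
          have h1 := SP_le hGS N hN1 hφ0.per hφ1.per hφ2.per p.1 p.2.1 p.2.2 he0.1 he1.1 he2.1 hMN
          obtain ⟨d1, d2, d3⟩ := dvd_M3 p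
          have hlM : l ∣ M3 p := by
            rcases hl3 with h | h | h
            · exact h.1.trans d1
            · exact h.1.trans d1
            · exact h.1.trans d2
          have hlL : l ∈ L := mem_filter.mpr ⟨hlP, bad3 hd01 hd02 hd12 hl k1 k2 k3 hl3⟩
          have h4 := Finset.single_le_sum
            (f := fun l => if l ∣ M3 p then 8 * (N : ℝ) / M3 p else 0) (s := L)
            (fun l _ => by split_ifs <;> positivity) hlL
          simp only [if_pos hlM] at h4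
          refine h1.trans ?_
          refine mul_le_mul hnW h4 (by positivity) hW
        · rw [SP_zero N φ0 φ1 φ2 p.1 p.2.1 p.2.2 hsol]
          positivity
      have h5 : 0 ≤ 1 / (N : ℝ) ^ 4 := by positivity
      rw [abs_le]
      constructor
      · linarith
      · linarith
  refine (Finset.abs_sum_le_sum_abs _ _).trans ?_
  refine (Finset.sum_le_sum hterm).trans ?_
  rw [← Finset.mul_sum, Finset.sum_add_distrib, Finset.sum_add_distrib, ← Finset.mul_sum]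
  have hX1 : 1 ≤ X := Nat.mul_pos (Nat.mul_pos hD1 hD1) hD1
  set H := HH X with hH
  have hH0 : 0 ≤ H := HH_nonneg _
  have hHle : H ≤ 2 * Real.log N := by
    have h1 := HH_le X
    have h2 : Real.log X ≤ Real.log N := Real.log_le_log (by exact_mod_cast hX1) hXN
    linarith
  have hHD0 : 0 ≤ HH D := HH_nonneg _
  have hHD : HH D ≤ H := HH_mono (by
    calc D ≤ D * D := Nat.le_mul_of_pos_right _ hD1
      _ ≤ D * D * D := Nat.le_mul_of_pos_right _ hD1)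
  have hcard : ∑ _p ∈ id3 D, 1 / (N : ℝ) ^ 4 ≤ 1 := by
    rw [Finset.sum_const, nsmul_eq_mul]
    have h1 : (id3 D).card = X := by
      unfold id3
      rw [card_product, card_product, Nat.card_Icc]
      simp only [Nat.add_sub_cancel]
      rw [hX, mul_assoc]
    rw [h1, mul_one_div, div_le_one (by positivity)]
    refine hXN.trans ?_
    calc (N : ℝ) = (N : ℝ) ^ 1 := (pow_one _).symm
      _ ≤ (N : ℝ) ^ 4 := pow_le_pow_right₀ (by linarith) (by norm_num)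
  have hLc : (L.card : ℝ) ≤ 6 * M * Real.log N := by
    refine card_L3 hN3 Ls (fun p hp => (hLsP p hp).1) (R01 * R02 * R12)
      (mul_ne_zero (mul_ne_zero hne01 hne02) hne12) ?_
    push_cast
    rw [abs_mul, abs_mul]
    calc |(R01 : ℝ)| * |(R02 : ℝ)| * |(R12 : ℝ)| ≤ (N : ℝ) ^ M * (N : ℝ) ^ M * (N : ℝ) ^ M := by
          gcongr
      _ = (N : ℝ) ^ (3 * M) := by
          rw [← pow_add, ← pow_add]; congr 1; ring
  set a₁ : ℕ := 3 + 3 * k with ha₁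
  set a₂ : ℕ := 2 ^ a₁ with ha₂
  set a₃ : ℕ := 3 * 2 ^ k with ha₃
  have hsA : ∑ p ∈ id3 D, W3 k p * A3 N L p ≤
      6 * M * Real.log N * (8 * N * (2 ^ a₁ / y * H ^ a₂)) := by
    unfold A3
    simp only [Finset.mul_sum]
    rw [Finset.sum_comm]
    calc ∑ l ∈ L, ∑ p ∈ id3 D, W3 k p * (if l ∣ M3 p then 8 * (N : ℝ) / M3 p else 0)
        ≤ ∑ _l ∈ L, 8 * N * (2 ^ a₁ / y * H ^ a₂) := by
          refine Finset.sum_le_sum fun l hl => ?_
          have hlP := (mem_filter.mp hl).1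
          obtain ⟨hlp, hly⟩ := hLsP l hlP
          have h1 := sum_M3 k D l hlp.one_lt.le
          rw [ta_prime hlp] at h1
          simp only [mul_ite, mul_zero]
          rw [← Finset.sum_filter]
          calc ∑ p ∈ (id3 D).filter (fun p => l ∣ M3 p), W3 k p * (8 * (N : ℝ) / M3 p)
              = 8 * N * ∑ p ∈ (id3 D).filter (fun p => l ∣ M3 p), W3 k p / (M3 p : ℝ) := by
                rw [Finset.mul_sum]
                exact Finset.sum_congr rfl fun _ _ => by ring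
            _ ≤ 8 * N * (((2 : ℕ) : ℝ) ^ a₁ / l * HH (D * D * D) ^ a₂) := by gcongr
            _ ≤ 8 * N * (2 ^ a₁ / y * H ^ a₂) := by
                rw [← hX, ← hH]
                push_cast
                gcongr
      _ = L.card * (8 * N * (2 ^ a₁ / y * H ^ a₂)) := by
          rw [Finset.sum_const, nsmul_eq_mul]
      _ ≤ _ := by gcongr
  have hsB : ∑ p ∈ id3 D, W3 k p * B3 Ls p ≤ 3 * 4 ^ k * H ^ a₃ * (2 / y) := by
    unfold B3
    simp only [Finset.mul_sum]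
    rw [Finset.sum_comm]
    calc ∑ l ∈ Ls, ∑ p ∈ id3 D, W3 k p * t3 l p
        ≤ ∑ l ∈ Ls, 3 * 4 ^ k * H ^ a₃ * (1 / (l : ℝ) ^ 2) := by
          refine Finset.sum_le_sum fun l hl => ?_
          have h1 := sum_t3 k D l (hLsP l hl).1
          rw [mul_one_div]
          refine h1.trans ?_
          gcongr
      _ = 3 * 4 ^ k * H ^ a₃ * ∑ l ∈ Ls, 1 / (l : ℝ) ^ 2 := by rw [Finset.mul_sum]
      _ ≤ 3 * 4 ^ k * H ^ a₃ * (2 / y) := by
          have := sum_inv_sq Ls y hy fun p hp => (hLsP p hp).2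
          gcongr
  set ℓ := Real.log N with hℓ
  have hHa : H ^ a₂ ≤ (2 * ℓ) ^ a₂ := pow_le_pow_left₀ hH0 hHle _
  have hHb : H ^ a₃ ≤ (2 * ℓ) ^ a₃ := pow_le_pow_left₀ hH0 hHle _
  have hEE : EP k = a₂ + 1 + a₃ := rfl
  have hCC : CP k M = 6 * M * (8 * (2 ^ a₁ * 2 ^ a₂)) + 3 * 4 ^ k * 2 ^ a₃ * 2 + 1 := rfl
  have hl1 : ℓ ^ (a₂ + 1) ≤ ℓ ^ (EP k) := pow_le_pow_right₀ hlog (by
    rw [hEE]; exact Nat.le_add_right _ _)
  have hl2 : ℓ ^ a₃ ≤ ℓ ^ (EP k) := pow_le_pow_right₀ hlog (by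
    rw [hEE]; exact Nat.le_add_left _ _)
  clear_value a₃ a₂ a₁
  have hfin : ∑ _p ∈ id3 D, 1 / (N : ℝ) ^ 4 +
      ∑ p ∈ id3 D, W3 k p * A3 N L p +
      N * ∑ p ∈ id3 D, W3 k p * B3 Ls p ≤
        CP k M * (N * ℓ ^ (EP k) / y + 1) := by
    have h1 : 6 * M * ℓ * (8 * N * (2 ^ a₁ / y * H ^ a₂)) ≤
        6 * M * (8 * (2 ^ a₁ * 2 ^ a₂)) * (N * ℓ ^ (EP k) / y) := by
      calc 6 * M * ℓ * (8 * N * (2 ^ a₁ / y * H ^ a₂))
          ≤ 6 * M * ℓ * (8 * N * (2 ^ a₁ / y * (2 * ℓ) ^ a₂)) := by gcongr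
        _ = 6 * M * (8 * (2 ^ a₁ * 2 ^ a₂)) * (N * ℓ ^ (a₂ + 1) / y) := by
            rw [mul_pow, pow_succ ℓ a₂]; ring
        _ ≤ _ := by gcongr
    have h2 : (N : ℝ) * (3 * 4 ^ k * H ^ a₃ * (2 / y)) ≤
        3 * 4 ^ k * 2 ^ a₃ * 2 * (N * ℓ ^ (EP k) / y) := by
      calc (N : ℝ) * (3 * 4 ^ k * H ^ a₃ * (2 / y))
          ≤ N * (3 * 4 ^ k * (2 * ℓ) ^ a₃ * (2 / y)) := by gcongr
        _ = 3 * 4 ^ k * 2 ^ a₃ * 2 * (N * ℓ ^ a₃ / y) := by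
            rw [mul_pow]; ring
        _ ≤ _ := by gcongr
    have h3 : (N : ℝ) * ∑ p ∈ id3 D, W3 k p * B3 Ls p ≤
        N * (3 * 4 ^ k * H ^ a₃ * (2 / y)) := by gcongr
    have h4 : 0 ≤ (N : ℝ) * ℓ ^ (EP k) / y := by positivity
    have h5 : (0 : ℝ) ≤ 6 * M * (8 * (2 ^ a₁ * 2 ^ a₂)) := by positivity
    have h6 : (0 : ℝ) ≤ 3 * 4 ^ k * 2 ^ a₃ * 2 := by positivity
    rw [hCC]
    generalize (6 * M * (8 * (2 ^ a₁ * 2 ^ a₂)) : ℝ) = c₁ at h1 h5 ⊢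
    generalize (3 * 4 ^ k * 2 ^ a₃ * 2 : ℝ) = c₂ at h2 h6 ⊢
    generalize (N : ℝ) * ℓ ^ (EP k) / y = T at h1 h2 h4 ⊢
    have e0 : (c₁ + c₂ + 1) * (T + 1) = c₁ * T + c₂ * T + T + c₁ + c₂ + 1 := by ring
    rw [e0]
    linarith [hcard, hsA.trans h1, h3.trans h2]
  calc U ^ 3 * (∑ _p ∈ id3 D, 1 / (N : ℝ) ^ 4 +
      ∑ p ∈ id3 D, W3 k p * A3 N L p +
      N * ∑ p ∈ id3 D, W3 k p * B3 Ls p)
      ≤ U ^ 3 * (CP k M * (N * ℓ ^ (EP k) / y + 1)) := by gcongr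
    _ = CP k M * U ^ 3 * (N * ℓ ^ (EP k) / y + 1) := by ring

end Pool.Agent.W962.PP
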