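import Pool.Agent.W23.PP.Defs
import Pool.Agent.W410.KS.CORK1

/-!
PP project, task CORP, part 1: expansion, single terms, divisor sums.
-/

set_option autoImplicit false

namespace Pool.Agent.W962.PP

open Finset
open Pool.Agent.H442R2
open Pool.Agent.H442R2.KF
open Pool.Agent.W23.DC
open Pool.Agent.W23.SG
open Pool.Agent.W23.PL
open Pool.Agent.W23.KT
open Pool.Agent.W23.PP
open Pool.Agent.H442R2.BX.TaskEX
open Pool.Agent.H442R2.BX.TaskSV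
open Pool.Agent.W249.PL
open Pool.Agent.W410.KS (II_sum kw_nonneg kw_le_ta ta_dvd fib_sum')

/-- product of three sums -/
theorem sum3 {α β γ : Type*} (R0 : Finset α) (R1 : Finset β) (R2 : Finset γ) (A : α → ℝ)
    (B : β → ℝ) (C : γ → ℝ) :
    (∑ a ∈ R0, A a) * ((∑ b ∈ R1, B b) * ∑ c ∈ R2, C c) =
      ∑ x ∈ R0 ×ˢ (R1 ×ˢ R2), A x.1 * (B x.2.1 * C x.2.2) := by
  rw [Finset.sum_mul_sum R1, ← Finset.sum_product' R1 R2 (fun b c => B b * C c),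
    Finset.sum_mul_sum, ← Finset.sum_product' R0 (R1 ×ˢ R2) (fun a x => A a * (B x.1 * C x.2))]

/-- the sum over a class -/
noncomputable def CL (N m : ℕ) (c : ℤ) : ℝ := ∑' n : ℤ, Wt N n * II m (n - c)

theorem hasSum_CL (N : ℕ) (hN : 1 ≤ N) (m : ℕ) (c : ℤ) :
    HasSum (fun n : ℤ => Wt N n * II m (n - c)) (CL N m c) :=
  (summable_bd N hN _ 1 fun n => II_abs m (n - c)).hasSum

theorem CL_eq (N m : ℕ) (c : ℤ) :
    CL N m c = ∑' n : ℤ, (if (m : ℤ) ∣ n - c then Wt N n else 0) := by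
  unfold CL
  refine tsum_congr fun n => ?_
  unfold II
  split_ifs
  · rw [mul_one]
  · rw [mul_zero]

theorem CL_cop : ∃ N₀ : ℕ, ∀ N : ℕ, N₀ ≤ N → ∀ (m : ℕ) (c : ℤ), 1 ≤ m →
    (m : ℝ) * Real.log N ≤ N → 3 ≤ N → |CL N m c - (N : ℝ) / m| ≤ 1 / (N : ℝ) ^ 5 := by
  obtain ⟨N₀, hN₀⟩ := poisson_trunc
  refine ⟨N₀, fun N hN m c hm hJ hN3 => ?_⟩
  have hNr : (3 : ℝ) ≤ N := by exact_mod_cast hN3
  have hlog : 1 ≤ Real.log N := by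
    rw [Real.le_log_iff_exp_le (by linarith)]
    have := Real.exp_one_lt_d9
    linarith
  have hqle : (m : ℝ) ≤ (N : ℝ) ^ 3 := by
    have h4 : (m : ℝ) ≤ N := by
      have h5 : (0 : ℝ) ≤ (m : ℝ) := by positivity
      nlinarith
    have h6 : (N : ℝ) ≤ (N : ℝ) ^ 3 := by
      have : (1 : ℝ) ≤ N := by linarith
      calc (N : ℝ) = (N : ℝ) ^ 1 := (pow_one _).symm
        _ ≤ (N : ℝ) ^ 3 := pow_le_pow_right₀ this (by norm_num)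
    linarith
  have key := hN₀ N hN m hm hqle c 0 (by push_cast; linarith)
  rw [← CL_eq] at key
  have h0 : Icc (-((0 : ℕ) : ℤ)) ((0 : ℕ) : ℤ) = {0} := by simp
  rw [h0, Finset.sum_singleton] at key
  have h7 : ((Real.exp (-Real.pi * (((0 : ℤ) : ℝ) * N / (m : ℝ)) ^ 2) : ℝ) : ℂ) *
      e (((0 : ℤ) : ℝ) * c / (m : ℝ)) = 1 := by
    simp [e_zero]
  rw [h7, mul_one, ← Complex.ofReal_sub, Complex.norm_real, Real.norm_eq_abs] at key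
  exact key

theorem CL_le (hGS : BX.St_GS) (N : ℕ) (hN : 1 ≤ N) (m : ℕ) (hm : 1 ≤ m) (hmN : (m : ℝ) ≤ N)
    (c : ℤ) : CL N m c ≤ 8 * (N : ℝ) / m := by
  rw [CL_eq]
  refine ((hGS N hN).2 m c hm).trans ?_
  have hM0 : (0 : ℝ) < m := by exact_mod_cast hm
  have h7 : (1 : ℝ) ≤ N / m := by
    rw [le_div_iff₀ hM0]; linarith
  rw [mul_div_assoc]
  linarith

/-- `∑' Wt 1_{e₀ | φ0 n} 1_{e₁ | φ1 n} 1_{e₂ | φ2 n}` -/
noncomputable def SP (N : ℕ) (φ0 φ1 φ2 : ℤ → ℤ) (e0 e1 e2 : ℕ) : ℝ :=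
  ∑' n : ℤ, Wt N n * (II e0 (φ0 n) * (II e1 (φ1 n) * II e2 (φ2 n)))

theorem II_nonneg (m : ℕ) (n : ℤ) : 0 ≤ II m n := by unfold II; split_ifs <;> norm_num

theorem II3_abs (a b c : ℕ) (x y z : ℤ) : |II a x * (II b y * II c z)| ≤ 1 := by
  rw [abs_mul, abs_mul]
  have k1 := II_abs a x
  have k2 := II_abs b y
  have k3 := II_abs c z
  calc |II a x| * (|II b y| * |II c z|) ≤ 1 * (1 * 1) := by gcongr
    _ = 1 := by norm_num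

theorem hasSum_SP (N : ℕ) (hN : 1 ≤ N) (φ0 φ1 φ2 : ℤ → ℤ) (e0 e1 e2 : ℕ) :
    HasSum (fun n : ℤ => Wt N n * (II e0 (φ0 n) * (II e1 (φ1 n) * II e2 (φ2 n))))
      (SP N φ0 φ1 φ2 e0 e1 e2) :=
  (summable_bd N hN _ 1 fun n => II3_abs _ _ _ _ _ _).hasSum

theorem SP_nonneg (N : ℕ) (φ0 φ1 φ2 : ℤ → ℤ) (e0 e1 e2 : ℕ) : 0 ≤ SP N φ0 φ1 φ2 e0 e1 e2 := by
  unfold SP
  refine tsum_nonneg fun n => ?_
  have h1 := Wt_pos N n
  have a1 := II_nonneg e0 (φ0 n)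
  have a2 := II_nonneg e1 (φ1 n)
  have a3 := II_nonneg e2 (φ2 n)
  positivity

theorem prod_II (a b c : ℕ) (x y z : ℤ) :
    II a x * (II b y * II c z) = if (a : ℤ) ∣ x ∧ (b : ℤ) ∣ y ∧ (c : ℤ) ∣ z then 1 else 0 := by
  unfold II
  by_cases h1 : (a : ℤ) ∣ x <;> by_cases h2 : (b : ℤ) ∣ y <;> by_cases h3 : (c : ℤ) ∣ z <;>
    simp [h1, h2, h3]

theorem SP_zero (N : ℕ) (φ0 φ1 φ2 : ℤ → ℤ) (e0 e1 e2 : ℕ)
    (h : ¬ ∃ n : ℤ, (e0 : ℤ) ∣ φ0 n ∧ (e1 : ℤ) ∣ φ1 n ∧ (e2 : ℤ) ∣ φ2 n) :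
    SP N φ0 φ1 φ2 e0 e1 e2 = 0 := by
  unfold SP
  have h1 : ∀ n : ℤ, Wt N n * (II e0 (φ0 n) * (II e1 (φ1 n) * II e2 (φ2 n))) = 0 := by
    intro n
    rw [prod_II, if_neg fun hn => h ⟨n, hn⟩, mul_zero]
  rw [tsum_congr h1, tsum_zero]

open Classical in
/-- the indicator of a union of classes -/
theorem ind_sum {m : ℕ} {P : Prop} (Ω : Finset ℕ) (h1 : ∀ s ∈ Ω, s < m) (n : ℤ)
    (h2 : P ↔ ∃ s ∈ Ω, (m : ℤ) ∣ n - s) :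
    (if P then (1 : ℝ) else 0) = ∑ s ∈ Ω, II m (n - s) := by
  by_cases h : ∃ s ∈ Ω, (m : ℤ) ∣ n - s
  · obtain ⟨s, hs, hsd⟩ := h
    rw [Finset.sum_eq_single s]
    · have e2 : II m (n - s) = 1 := if_pos hsd
      rw [if_pos (h2.mpr ⟨s, hs, hsd⟩), e2]
    · intro t ht hts
      refine if_neg fun htd => hts ?_
      have h3 : (m : ℤ) ∣ (s : ℤ) - t := by
        have := dvd_sub htd hsd
        have e0 : n - (t : ℤ) - (n - s) = s - t := by ring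
        rwa [e0] at this
      have h4 := Int.eq_zero_of_abs_lt_dvd h3 (by
        have := h1 s hs
        have := h1 t ht
        rw [abs_lt]
        constructor <;> omega)
      omega
    · intro h; exact absurd hs h
  · rw [if_neg fun hm => h (h2.mp hm)]
    symm
    refine Finset.sum_eq_zero fun s hs => if_neg fun hd => h ⟨s, hs, hd⟩

/-- coprime moduli: the conditions are a union of classes -/
theorem SP_classes (N : ℕ) (hN : 1 ≤ N) (φ0 φ1 φ2 : ℤ → ℤ) (e0 e1 e2 m : ℕ) (Ω : Finset ℕ)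
    (h1 : ∀ s ∈ Ω, s < m)
    (h2 : ∀ n : ℤ, ((e0 : ℤ) ∣ φ0 n ∧ (e1 : ℤ) ∣ φ1 n ∧ (e2 : ℤ) ∣ φ2 n) ↔
      ∃ s ∈ Ω, (m : ℤ) ∣ n - s) :
    SP N φ0 φ1 φ2 e0 e1 e2 = ∑ s ∈ Ω, CL N m s := by
  have h3 := hasSum_sum (s := Ω) (fun s _ => hasSum_CL N hN m (s : ℤ))
  rw [← h3.tsum_eq]
  unfold SP
  refine tsum_congr fun n => ?_
  rw [prod_II, ← Finset.mul_sum]
  congr 1
  have := ind_sum Ω h1 n (h2 n)
  convert this

open Classical in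
/-- the residues `a < e` with `e ∣ φ a` -/
noncomputable def Rs (φ : ℤ → ℤ) (e : ℕ) : Finset ℕ :=
  (range e).filter (fun a : ℕ => (e : ℤ) ∣ φ a)

theorem Rs_card (φ : ℤ → ℤ) (e : ℕ) : (Rs φ e).card = nr φ e := rfl

theorem nr_le (φ : ℤ → ℤ) (e : ℕ) : nr φ e ≤ e := by
  rw [← Rs_card]
  refine (card_filter_le _ _).trans ?_
  rw [card_range]

theorem Rs_iff {φ : ℤ → ℤ} (hφ : Per φ) {e : ℕ} (he : 1 ≤ e) (n : ℤ) :
    (e : ℤ) ∣ φ n ↔ ∃ s ∈ Rs φ e, (e : ℤ) ∣ n - s := by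
  have he0 : (0 : ℤ) < e := by exact_mod_cast he
  constructor
  · intro h
    have h1 : 0 ≤ n % (e : ℤ) := Int.emod_nonneg _ he0.ne'
    have h2 : n % (e : ℤ) < e := Int.emod_lt_of_pos _ he0
    have h3 : (((n % (e : ℤ)).toNat : ℕ) : ℤ) = n % (e : ℤ) := Int.toNat_of_nonneg h1
    have h4 : (e : ℤ) ∣ n - (((n % (e : ℤ)).toNat : ℕ) : ℤ) := by
      rw [h3]
      exact Int.dvd_self_sub_emod
    refine ⟨(n % (e : ℤ)).toNat, ?_, h4⟩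
    unfold Rs
    rw [mem_filter, mem_range]
    refine ⟨by omega, ?_⟩
    have h5 := h4.trans (hφ n _)
    exact (dvd_sub_right h).mp h5
  · rintro ⟨s, hs, hd⟩
    unfold Rs at hs
    have h5 := hd.trans (hφ n s)
    exact (dvd_sub_left (mem_filter.mp hs).2).mp h5

theorem Rs_lt {φ : ℤ → ℤ} {e s : ℕ} (hs : s ∈ Rs φ e) : s < e := by
  unfold Rs at hs
  exact mem_range.mp (mem_filter.mp hs).1

/-- `∑' Wt 1_{e₀ | n - s₀} 1_{e₁ | n - s₁} 1_{e₂ | n - s₂}` -/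
noncomputable def TT (N : ℕ) (e0 e1 e2 : ℕ) (x : ℕ × (ℕ × ℕ)) : ℝ :=
  ∑' n : ℤ, Wt N n * (II e0 (n - x.1) * (II e1 (n - x.2.1) * II e2 (n - x.2.2)))

theorem TT_le (hGS : BX.St_GS) (N : ℕ) (hN : 1 ≤ N) (e0 e1 e2 : ℕ) (hm : 1 ≤ m3 e0 e1 e2)
    (hmN : (m3 e0 e1 e2 : ℝ) ≤ N) (x : ℕ × (ℕ × ℕ)) :
    TT N e0 e1 e2 x ≤ 8 * (N : ℝ) / (m3 e0 e1 e2 : ℕ) := by
  by_cases hsol : ∃ n : ℤ, (e0 : ℤ) ∣ n - (x.1 : ℤ) ∧ (e1 : ℤ) ∣ n - (x.2.1 : ℤ) ∧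
      (e2 : ℤ) ∣ n - (x.2.2 : ℤ)
  · obtain ⟨n₀, k1, k2, k3⟩ := hsol
    refine le_trans ?_ (CL_le hGS N hN _ hm hmN n₀)
    unfold TT CL
    have hpos : ∀ n : ℤ, 0 < Wt N n := Wt_pos N
    refine Summable.tsum_le_tsum (fun n => ?_)
      (summable_bd N hN _ 1 fun n => II3_abs _ _ _ _ _ _) (hasSum_CL N hN _ n₀).summable
    refine mul_le_mul_of_nonneg_left ?_ (hpos n).le
    rw [prod_II]
    split_ifs with hp
    · obtain ⟨j1, j2, j3⟩ := hp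
      have f : ∀ (e : ℕ) (s : ℤ), (e : ℤ) ∣ n - s → (e : ℤ) ∣ n₀ - s → (e : ℤ) ∣ n - n₀ := by
        intro e s i1 i2
        have := dvd_sub i1 i2
        have e' : n - s - (n₀ - s) = n - n₀ := by ring
        rwa [e'] at this
      have f1 := f _ _ j1 k1
      have f2 := f _ _ j2 k2
      have f3 := f _ _ j3 k3
      have f4 : ((m3 e0 e1 e2 : ℕ) : ℤ) ∣ n - n₀ := by
        unfold m3
        rw [Int.natCast_dvd] at f1 f2 f3 ⊢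
        exact Nat.lcm_dvd (Nat.lcm_dvd f1 f2) f3
      have : II (m3 e0 e1 e2) (n - n₀) = 1 := if_pos f4
      rw [this]
    · exact II_nonneg _ _
  · have h0 : TT N e0 e1 e2 x = 0 := by
      unfold TT
      have h1 : ∀ n : ℤ, Wt N n * (II e0 (n - x.1) * (II e1 (n - x.2.1) * II e2 (n - x.2.2)))
          = 0 := by
        intro n
        rw [prod_II, if_neg fun hn => hsol ⟨n, hn⟩, mul_zero]
      rw [tsum_congr h1, tsum_zero]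
    rw [h0]
    positivity

theorem SP_le (hGS : BX.St_GS) (N : ℕ) (hN : 1 ≤ N) {φ0 φ1 φ2 : ℤ → ℤ} (h0 : Per φ0)
    (h1 : Per φ1) (h2 : Per φ2) (e0 e1 e2 : ℕ) (he0 : 1 ≤ e0) (he1 : 1 ≤ e1) (he2 : 1 ≤ e2)
    (hmN : (m3 e0 e1 e2 : ℝ) ≤ N) :
    SP N φ0 φ1 φ2 e0 e1 e2 ≤
      (nr φ0 e0 : ℝ) * ((nr φ1 e1 : ℝ) * nr φ2 e2) * (8 * (N : ℝ) / (m3 e0 e1 e2 : ℕ)) := by
  have hm : 1 ≤ m3 e0 e1 e2 := Nat.lcm_pos (Nat.lcm_pos he0 he1) he2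
  have hs : ∀ x ∈ Rs φ0 e0 ×ˢ (Rs φ1 e1 ×ˢ Rs φ2 e2), HasSum (fun n : ℤ => Wt N n *
      (II e0 (n - (x.1 : ℤ)) * (II e1 (n - (x.2.1 : ℤ)) * II e2 (n - (x.2.2 : ℤ)))))
      (TT N e0 e1 e2 x) :=
    fun x _ => (summable_bd N hN _ 1 fun n => II3_abs _ _ _ _ _ _).hasSum
  have h3 := hasSum_sum hs
  have h4 : SP N φ0 φ1 φ2 e0 e1 e2 =
      ∑ x ∈ Rs φ0 e0 ×ˢ (Rs φ1 e1 ×ˢ Rs φ2 e2), TT N e0 e1 e2 x := by
    rw [← h3.tsum_eq]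
    unfold SP
    refine tsum_congr fun n => ?_
    rw [← Finset.mul_sum, ← sum3 (Rs φ0 e0) (Rs φ1 e1) (Rs φ2 e2)
      (fun s => II e0 (n - (s : ℤ))) (fun s => II e1 (n - (s : ℤ))) (fun s => II e2 (n - (s : ℤ))),
      II_sum (Rs φ0 e0) (fun s hs => Rs_lt hs) (φ0 n) n (Rs_iff h0 he0 n),
      II_sum (Rs φ1 e1) (fun s hs => Rs_lt hs) (φ1 n) n (Rs_iff h1 he1 n),
      II_sum (Rs φ2 e2) (fun s hs => Rs_lt hs) (φ2 n) n (Rs_iff h2 he2 n)]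
  rw [h4]
  calc ∑ x ∈ Rs φ0 e0 ×ˢ (Rs φ1 e1 ×ˢ Rs φ2 e2), TT N e0 e1 e2 x
      ≤ ∑ _x ∈ Rs φ0 e0 ×ˢ (Rs φ1 e1 ×ˢ Rs φ2 e2), 8 * (N : ℝ) / (m3 e0 e1 e2 : ℕ) :=
        Finset.sum_le_sum fun x _ => TT_le hGS N hN e0 e1 e2 hm hmN x
    _ = _ := by
        rw [Finset.sum_const, card_product, card_product, Rs_card, Rs_card, Rs_card,
          nsmul_eq_mul]
        push_cast
        ring

/-! ### triples -/

/-- the triples `(e₀, e₁, e₂)` -/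
def id3 (D : ℕ) : Finset (ℕ × (ℕ × ℕ)) := Icc 1 D ×ˢ (Icc 1 D ×ˢ Icc 1 D)

/-- the coefficient of a triple -/
noncomputable def cf3 (t0 t1 t2 : ℕ → ℝ) (p : ℕ × (ℕ × ℕ)) : ℝ := t0 p.1 * (t1 p.2.1 * t2 p.2.2)

theorem expand3 (N D : ℕ) (hN : 1 ≤ N) (t0 t1 t2 : ℕ → ℝ) (φ0 φ1 φ2 : ℤ → ℤ) :
    ∑' n : ℤ, Wt N n * (Ev t0 D (φ0 n) * (Ev t1 D (φ1 n) * Ev t2 D (φ2 n))) =
      ∑ p ∈ id3 D, cf3 t0 t1 t2 p * SP N φ0 φ1 φ2 p.1 p.2.1 p.2.2 := by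
  have h1 := hasSum_sum (s := id3 D)
    (f := fun p (n : ℤ) => cf3 t0 t1 t2 p *
      (Wt N n * (II p.1 (φ0 n) * (II p.2.1 (φ1 n) * II p.2.2 (φ2 n)))))
    (a := fun p => cf3 t0 t1 t2 p * SP N φ0 φ1 φ2 p.1 p.2.1 p.2.2)
    (fun p _ => (hasSum_SP N hN φ0 φ1 φ2 p.1 p.2.1 p.2.2).mul_left _)
  rw [← h1.tsum_eq]
  refine tsum_congr fun n => ?_
  rw [Ev_eq, Ev_eq, Ev_eq, sum3, Finset.mul_sum]
  refine Finset.sum_congr rfl fun x _ => ?_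
  unfold cf3
  ring

theorem main3 (N D : ℕ) (t0 t1 t2 : ℕ → ℝ) (φ0 φ1 φ2 : ℤ → ℤ) :
    (N : ℝ) * (hatP φ0 t0 D * (hatP φ1 t1 D * hatP φ2 t2 D)) =
      ∑ p ∈ id3 D, cf3 t0 t1 t2 p * (N * (rh φ0 p.1 * (rh φ1 p.2.1 * rh φ2 p.2.2))) := by
  unfold hatP
  rw [sum3, Finset.mul_sum]
  refine Finset.sum_congr rfl fun x _ => ?_
  unfold cf3
  ring

theorem mem_id3 {D : ℕ} {p : ℕ × (ℕ × ℕ)} (hp : p ∈ id3 D) :
    (1 ≤ p.1 ∧ p.1 ≤ D) ∧ (1 ≤ p.2.1 ∧ p.2.1 ≤ D) ∧ (1 ≤ p.2.2 ∧ p.2.2 ≤ D) := by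
  obtain ⟨h1, h2⟩ := mem_product.mp hp
  obtain ⟨h3, h4⟩ := mem_product.mp h2
  exact ⟨mem_Icc.mp h1, mem_Icc.mp h3, mem_Icc.mp h4⟩

/-- `lcm` -/
def M3 (p : ℕ × (ℕ × ℕ)) : ℕ := m3 p.1 p.2.1 p.2.2

theorem M3_bd {D : ℕ} {p : ℕ × (ℕ × ℕ)} (hp : p ∈ id3 D) : 1 ≤ M3 p ∧ M3 p ≤ D * D * D := by
  obtain ⟨h1, h2, h3⟩ := mem_id3 hp
  have h7 : 0 < Nat.lcm p.1 p.2.1 := Nat.lcm_pos h1.1 h2.1
  refine ⟨Nat.lcm_pos h7 h3.1, ?_⟩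
  calc M3 p ≤ Nat.lcm p.1 p.2.1 * p.2.2 :=
        Nat.le_of_dvd (Nat.mul_pos h7 h3.1) (Nat.lcm_dvd_mul _ _)
    _ ≤ (p.1 * p.2.1) * p.2.2 := Nat.mul_le_mul_right _
        (Nat.le_of_dvd (Nat.mul_pos h1.1 h2.1) (Nat.lcm_dvd_mul _ _))
    _ ≤ (D * D) * D := Nat.mul_le_mul (Nat.mul_le_mul h1.2 h2.2) h3.2

theorem dvd_M3 (p : ℕ × (ℕ × ℕ)) : p.1 ∣ M3 p ∧ p.2.1 ∣ M3 p ∧ p.2.2 ∣ M3 p :=
  ⟨(Nat.dvd_lcm_left _ _).trans (Nat.dvd_lcm_left _ _),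
    (Nat.dvd_lcm_right _ _).trans (Nat.dvd_lcm_left _ _), Nat.dvd_lcm_right _ _⟩

/-- the weights -/
noncomputable def W3 (k : ℕ) (p : ℕ × (ℕ × ℕ)) : ℝ := kw k p.1 * (kw k p.2.1 * kw k p.2.2)

theorem W3_nonneg (k : ℕ) (p : ℕ × (ℕ × ℕ)) : 0 ≤ W3 k p :=
  mul_nonneg (kw_nonneg _ _) (mul_nonneg (kw_nonneg _ _) (kw_nonneg _ _))

/-- the sum over the triples with `l ∣ M` -/
theorem sum_M3 (k D l : ℕ) (hl : 1 ≤ l) :
    ∑ p ∈ (id3 D).filter (fun p => l ∣ M3 p), W3 k p / (M3 p : ℝ) ≤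
      (ta l : ℝ) ^ (3 + 3 * k) / l * HH (D * D * D) ^ (2 ^ (3 + 3 * k)) := by
  refine fib_sum' _ M3 _ 3 (3 * k) (D * D * D) l hl ?_ ?_ ?_
  · intro p hp
    obtain ⟨h1, h2⟩ := mem_filter.mp hp
    exact ⟨(M3_bd h1).1, (M3_bd h1).2, h2⟩
  · intro p hp
    obtain ⟨h1, h2⟩ := mem_filter.mp hp
    obtain ⟨h3, h4, h5⟩ := mem_id3 h1
    have hM := (M3_bd h1).1
    obtain ⟨d1, d2, d3⟩ := dvd_M3 p
    have a1 : kw k p.1 ≤ (ta (M3 p) : ℝ) ^ k := (kw_le_ta k h3.1).trans (by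
      gcongr; exact_mod_cast ta_dvd hM d1)
    have a2 : kw k p.2.1 ≤ (ta (M3 p) : ℝ) ^ k := (kw_le_ta k h4.1).trans (by
      gcongr; exact_mod_cast ta_dvd hM d2)
    have a3 : kw k p.2.2 ≤ (ta (M3 p) : ℝ) ^ k := (kw_le_ta k h5.1).trans (by
      gcongr; exact_mod_cast ta_dvd hM d3)
    have b1 := kw_nonneg k p.1
    have b2 := kw_nonneg k p.2.1
    have b3 := kw_nonneg k p.2.2
    calc W3 k p ≤ (ta (M3 p) : ℝ) ^ k * ((ta (M3 p) : ℝ) ^ k * (ta (M3 p) : ℝ) ^ k) := by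
          unfold W3
          gcongr
      _ = _ := by rw [← pow_add, ← pow_add]; congr 1; ring
  · intro M hM
    calc _ ≤ (M.divisors ×ˢ (M.divisors ×ˢ M.divisors)).card := by
          refine Finset.card_le_card fun p hp => ?_
          have h9 := (mem_filter.mp hp).2
          obtain ⟨k1, k2, k3⟩ := dvd_M3 p
          rw [h9] at k1 k2 k3
          have hM0 : M ≠ 0 := by omega
          exact mem_product.mpr ⟨Nat.mem_divisors.mpr ⟨k1, hM0⟩, mem_product.mpr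
            ⟨Nat.mem_divisors.mpr ⟨k2, hM0⟩, Nat.mem_divisors.mpr ⟨k3, hM0⟩⟩⟩
      _ = ta M ^ 3 := by
          rw [card_product, card_product]
          show ta M * (ta M * ta M) = _
          ring

theorem sum_kdv (k D l : ℕ) (hl : l.Prime) :
    ∑ e ∈ Icc 1 D, kw k e * dv l e ≤ 2 ^ k / l * HH D ^ (2 ^ k) := by
  have h := ta_sum_dvd k D l hl.one_lt.le
  rw [ta_prime hl, Finset.sum_filter] at h
  calc ∑ e ∈ Icc 1 D, kw k e * dv l e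
      ≤ ∑ e ∈ Icc 1 D, (if l ∣ e then (ta e : ℝ) ^ k / e else 0) := by
        refine Finset.sum_le_sum fun e he => ?_
        have h1 := kw_le_ta k (mem_Icc.mp he).1
        unfold dv
        split_ifs
        · rw [mul_one_div]
          gcongr
        · rw [mul_zero]
    _ ≤ _ := h
    _ = 2 ^ k / l * HH D ^ (2 ^ k) := by
        push_cast
        rfl

theorem sum_kinv (k D : ℕ) :
    ∑ e ∈ Icc 1 D, kw k e * (1 / (e : ℝ)) ≤ HH D ^ (2 ^ k) := by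
  refine le_trans ?_ (ta_sum k D)
  refine Finset.sum_le_sum fun e he => ?_
  have h1 := kw_le_ta k (mem_Icc.mp he).1
  rw [mul_one_div]
  gcongr

/-- the three terms -/
noncomputable def t3 (l : ℕ) (p : ℕ × (ℕ × ℕ)) : ℝ :=
  dv l p.1 * (dv l p.2.1 * (1 / (p.2.2 : ℝ))) +
    dv l p.1 * ((1 / (p.2.1 : ℝ)) * dv l p.2.2) +
    (1 / (p.1 : ℝ)) * (dv l p.2.1 * dv l p.2.2)

theorem t3_nonneg (l : ℕ) (p : ℕ × (ℕ × ℕ)) : 0 ≤ t3 l p := by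
  unfold t3
  have h1 := dv_nonneg l p.1
  have h2 := dv_nonneg l p.2.1
  have h3 := dv_nonneg l p.2.2
  positivity

theorem sum_t3 (k D l : ℕ) (hl : l.Prime) :
    ∑ p ∈ id3 D, W3 k p * t3 l p ≤ 3 * 4 ^ k * HH D ^ (3 * 2 ^ k) / (l : ℝ) ^ 2 := by
  set H := HH D with hH
  have hH0 : 0 ≤ H := HH_nonneg _
  have hl0 : (0 : ℝ) < l := by exact_mod_cast hl.pos
  have hB := sum_kdv k D l hl
  have hB0 : 0 ≤ ∑ e ∈ Icc 1 D, kw k e * dv l e :=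
    Finset.sum_nonneg fun _ _ => mul_nonneg (kw_nonneg _ _) (dv_nonneg _ _)
  have hC := sum_kinv k D
  have hC0 : 0 ≤ ∑ e ∈ Icc 1 D, kw k e * (1 / (e : ℝ)) :=
    Finset.sum_nonneg fun _ _ => mul_nonneg (kw_nonneg _ _) (by positivity)
  rw [← hH] at hB hC
  have h1 : ∑ p ∈ id3 D, W3 k p * t3 l p =
      (∑ e ∈ Icc 1 D, kw k e * dv l e) *
        ((∑ e ∈ Icc 1 D, kw k e * dv l e) * ∑ e ∈ Icc 1 D, kw k e * (1 / (e : ℝ))) +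
      (∑ e ∈ Icc 1 D, kw k e * dv l e) *
        ((∑ e ∈ Icc 1 D, kw k e * (1 / (e : ℝ))) * ∑ e ∈ Icc 1 D, kw k e * dv l e) +
      (∑ e ∈ Icc 1 D, kw k e * (1 / (e : ℝ))) *
        ((∑ e ∈ Icc 1 D, kw k e * dv l e) * ∑ e ∈ Icc 1 D, kw k e * dv l e) := by
    rw [sum3, sum3, sum3, ← Finset.sum_add_distrib, ← Finset.sum_add_distrib]
    refine Finset.sum_congr rfl fun p _ => ?_
    unfold W3 t3
    ring
  rw [h1]
  have e4 : (4 : ℝ) ^ k = 2 ^ k * 2 ^ k := by rw [← mul_pow]; norm_num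
  calc _ ≤ (2 ^ k / l * H ^ (2 ^ k)) * ((2 ^ k / l * H ^ (2 ^ k)) * H ^ (2 ^ k)) +
        (2 ^ k / l * H ^ (2 ^ k)) * (H ^ (2 ^ k) * (2 ^ k / l * H ^ (2 ^ k))) +
        H ^ (2 ^ k) * ((2 ^ k / l * H ^ (2 ^ k)) * (2 ^ k / l * H ^ (2 ^ k))) := by gcongr
    _ = 3 * 4 ^ k * H ^ (3 * 2 ^ k) / (l : ℝ) ^ 2 := by
      rw [e4, show 3 * 2 ^ k = 2 ^ k + 2 ^ k + 2 ^ k by ring, pow_add, pow_add]
      field_simp
      ring

/-- the bound for a single triple of moduli that are not pairwise coprime -/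
noncomputable def A3 (N : ℕ) (L : Finset ℕ) (p : ℕ × (ℕ × ℕ)) : ℝ :=
  ∑ l ∈ L, if l ∣ M3 p then 8 * (N : ℝ) / M3 p else 0

/-- the bound for the main term -/
noncomputable def B3 (L : Finset ℕ) (p : ℕ × (ℕ × ℕ)) : ℝ := ∑ l ∈ L, t3 l p

theorem A3_nonneg (N : ℕ) (L : Finset ℕ) (p : ℕ × (ℕ × ℕ)) : 0 ≤ A3 N L p := by
  unfold A3
  refine Finset.sum_nonneg fun l _ => ?_
  split_ifs <;> positivity

theorem B3_nonneg (L : Finset ℕ) (p : ℕ × (ℕ × ℕ)) : 0 ≤ B3 L p :=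
  Finset.sum_nonneg fun l _ => t3_nonneg l p

theorem inv_le_B3 {L : Finset ℕ} {p : ℕ × (ℕ × ℕ)} {l : ℕ} (hl : l ∈ L)
    (h : (l ∣ p.1 ∧ l ∣ p.2.1) ∨ (l ∣ p.1 ∧ l ∣ p.2.2) ∨ (l ∣ p.2.1 ∧ l ∣ p.2.2)) :
    (1 / (p.1 : ℝ)) * ((1 / (p.2.1 : ℝ)) * (1 / (p.2.2 : ℝ))) ≤ B3 L p := by
  refine le_trans ?_ (Finset.single_le_sum (f := fun l => t3 l p)
    (fun l _ => t3_nonneg l p) hl)
  have h1 := dv_nonneg l p.1
  have h2 := dv_nonneg l p.2.1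
  have h3 := dv_nonneg l p.2.2
  show _ ≤ t3 l p
  unfold t3
  rcases h with h | h | h
  · have e1 : dv l p.1 = 1 / (p.1 : ℝ) := if_pos h.1
    have e2 : dv l p.2.1 = 1 / (p.2.1 : ℝ) := if_pos h.2
    rw [e1, e2]
    have h4 : 0 ≤ 1 / (p.1 : ℝ) * (1 / (p.2.1 : ℝ) * dv l p.2.2) := by positivity
    linarith
  · have e1 : dv l p.1 = 1 / (p.1 : ℝ) := if_pos h.1
    have e2 : dv l p.2.2 = 1 / (p.2.2 : ℝ) := if_pos h.2
    rw [e1, e2]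
    have h4 : 0 ≤ 1 / (p.1 : ℝ) * (dv l p.2.1 * (1 / (p.2.2 : ℝ))) := by positivity
    linarith
  · have e1 : dv l p.2.1 = 1 / (p.2.1 : ℝ) := if_pos h.1
    have e2 : dv l p.2.2 = 1 / (p.2.2 : ℝ) := if_pos h.2
    rw [e1, e2]
    have h4 : 0 ≤ dv l p.1 * (1 / (p.2.1 : ℝ) * (1 / (p.2.2 : ℝ))) := by positivity
    linarith

/-- few primes divide the resultants -/
theorem card_L3 {M N : ℕ} (hN : 3 ≤ N) (P : Finset ℕ) (hP : ∀ p ∈ P, p.Prime) (R : ℤ)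
    (hR : R ≠ 0) (hRb : |(R : ℝ)| ≤ (N : ℝ) ^ (3 * M)) :
    ((P.filter (fun l : ℕ => (l : ℤ) ∣ R)).card : ℝ) ≤ 6 * M * Real.log N := by
  set L := P.filter (fun l : ℕ => (l : ℤ) ∣ R) with hL
  set m := R.natAbs with hm
  have hm0 : m ≠ 0 := Int.natAbs_ne_zero.mpr hR
  have h3 : ∏ l ∈ L, l ∣ m := by
    refine Finset.prod_primes_dvd m (fun l hl => (hP l (mem_filter.mp hl).1).prime) fun l hl => ?_
    exact Int.natCast_dvd.mp (mem_filter.mp hl).2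
  have h4 : 2 ^ L.card ≤ ∏ l ∈ L, l := by
    rw [← Finset.prod_const]
    exact Finset.prod_le_prod' fun l hl => (hP l (mem_filter.mp hl).1).two_le
  have h5 : 2 ^ L.card ≤ m := h4.trans (Nat.le_of_dvd (Nat.pos_of_ne_zero hm0) h3)
  have hNr : (3 : ℝ) ≤ N := by exact_mod_cast hN
  have h6 : (m : ℝ) ≤ (N : ℝ) ^ (3 * M) := by
    have h7 : (m : ℝ) = |(R : ℝ)| := by
      rw [hm, Nat.cast_natAbs]
      push_cast
      rfl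
    rw [h7]
    exact hRb
  have h9 : (2 : ℝ) ^ L.card ≤ (N : ℝ) ^ (3 * M) := by
    calc (2 : ℝ) ^ L.card ≤ (m : ℝ) := by exact_mod_cast h5
      _ ≤ _ := h6
  have hN0 : (0 : ℝ) < N := by linarith
  have h10 := Real.log_le_log (by positivity) h9
  rw [Real.log_pow, Real.log_pow] at h10
  have h12 := Real.log_two_gt_d9
  push_cast at h10
  have hc0 : (0 : ℝ) ≤ L.card := by positivity
  have h15 : (L.card : ℝ) * (1 / 2) ≤ L.card * Real.log 2 := by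
    apply mul_le_mul_of_nonneg_left _ hc0
    linarith
  linarith

end Pool.Agent.W962.PP
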